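import Pool.Agent.H95.CM.Targets

/-!
# Row C_TPE: totally positive balanced elements of an ideal
-/

set_option autoImplicit false

open MeasureTheory Set Filter NumberField
open scoped Real nonZeroDivisors
open Pool.Agent.H65.CM4
open Pool.Agent.H95.CM
open Pool.Agent.H31.CN (IsLf)
open Pool.Agent.H61.FM (CC pv)

namespace Pool.Agent.H14.CM4

section

variable {k : Type} [Field k] [NumberField k] [IsTotallyReal k]

omit [NumberField k] in
theorem abs_rv (v : Pl k) (x : k) : |rv v x| = v x := by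
  unfold rv
  rw [← Real.norm_eq_abs]
  exact InfinitePlace.norm_embedding_of_isReal (IsTotallyReal.isReal v) x

theorem prod_rv (x : k) : ∏ v : Pl k, |rv v x| = |((Algebra.norm ℚ x : ℚ) : ℝ)| := by
  have h := InfinitePlace.prod_eq_abs_norm x
  rw [← Rat.cast_abs, ← h]
  refine Finset.prod_congr rfl fun v _ => ?_
  rw [IsTotallyReal.mult_eq, pow_one, abs_rv]

theorem card_pl : Fintype.card (Pl k) = dg k := by
  unfold dg
  rw [← InfinitePlace.card_add_two_mul_card_eq_rank k,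
    InfinitePlace.card_eq_nrRealPlaces_add_nrComplexPlaces,
    IsTotallyReal.nrComplexPlaces_eq_zero]

theorem nm_le_prod {m : Ideal (𝓞 k)} {x : 𝓞 k} (hx : x ∈ m) (hx0 : x ≠ 0) :
    nm m ≤ ∏ v : Pl k, |rv v (x : k)| := by
  rw [prod_rv, ← Algebra.coe_norm_int]
  have h1 := Ideal.absNorm_dvd_norm_of_mem hx
  have h2 : Algebra.norm ℤ x ≠ 0 := Algebra.norm_ne_zero_iff.2 hx0
  have h3 := Int.le_of_dvd (abs_pos.2 h2) ((dvd_abs _ _).2 h1)
  unfold nm
  have h4 : ((Ideal.absNorm m : ℤ) : ℝ) ≤ ((|Algebra.norm ℤ x| : ℤ) : ℝ) := by exact_mod_cast h3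
  push_cast at h4 ⊢
  exact h4

theorem prod_unit (u : (𝓞 k)ˣ) : ∏ v : Pl k, |rv v ((u : 𝓞 k) : k)| = 1 := by
  rw [prod_rv, ← Algebra.coe_norm_int]
  have h1 : IsUnit (Algebra.norm ℤ (u : 𝓞 k)) := u.isUnit.map _
  rcases Int.isUnit_iff.1 h1 with h | h
  · rw [h]
    norm_num
  · rw [h]
    norm_num

end

theorem pf_TPE (hCOV : T_COV) (hBAL : Pool.Agent.H95.CM.T_BAL)
    (hMKI : Pool.Agent.H95.CM.T_MKI) : T_TPE := by
  classical
  intro k _ _ _
  obtain ⟨R, hR, hcov⟩ := hCOV k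
  obtain ⟨C1, hC1, hbal⟩ := hBAL k
  obtain ⟨C0, hC0, hmki⟩ := hMKI k
  refine ⟨C1 * C0 * (2 * R + C1), ?_, ?_⟩
  · have h1 : 1 ≤ C1 * C0 := one_le_mul_of_one_le_of_one_le hC1 hC0
    exact one_le_mul_of_one_le_of_one_le h1 (by linarith)
  intro m hm
  obtain ⟨x0, hx0m, hx00, hx0⟩ := hmki m hm
  have hn0 : 0 < dg k := by
    rw [← card_pl]
    exact Fintype.card_pos
  have hnm : 0 ≤ nm m := by
    unfold nm
    positivity
  have hx0k : ((x0 : 𝓞 k) : k) ≠ 0 := by
    intro h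
    exact hx00 (RingOfIntegers.ext (h.trans (map_zero (algebraMap (𝓞 k) k)).symm))
  have hr : ∀ v : Pl k, 0 < |rv v (x0 : k)| := fun v =>
    abs_pos.2 ((map_ne_zero (rv v)).2 hx0k)
  obtain ⟨u, hu⟩ := hbal (fun v => |rv v (x0 : k)|) hr
  set x : 𝓞 k := (u : 𝓞 k) * x0 with hx
  have hxm : x ∈ m := m.mul_mem_left _ hx0m
  have hxk : ((x : 𝓞 k) : k) = ((u : 𝓞 k) : k) * x0 := map_mul (algebraMap (𝓞 k) k) _ _
  set g : Pl k → ℝ := fun v => |rv v (x : k)| with hg
  have hgv : ∀ v, g v = |rv v (x0 : k)| * |rv v ((u : 𝓞 k) : k)| := by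
    intro v
    simp only [hg]
    rw [hxk, map_mul, abs_mul, mul_comm]
  have hgC : ∀ v w, g v ≤ C1 * g w := by
    intro v w
    rw [hgv, hgv]
    exact hu v w
  have hg0 : ∀ v, 0 ≤ g v := fun v => abs_nonneg _
  have hprod : ∏ v, g v = ∏ v : Pl k, |rv v (x0 : k)| := by
    rw [Finset.prod_congr rfl fun v _ => hgv v, Finset.prod_mul_distrib, prod_unit, mul_one]
  have hP1 : nm m ≤ ∏ v, g v := by
    rw [hprod]
    exact nm_le_prod hx0m hx00
  have hP2 : ∏ v, g v ≤ C0 * nm m := by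
    rw [hprod]
    exact hx0
  set T : ℝ := nm m ^ (1 / (dg k : ℝ)) with hT
  have hT0 : 0 ≤ T := Real.rpow_nonneg hnm _
  have hTn : T ^ dg k = nm m := by
    rw [hT, one_div]
    exact Real.rpow_inv_natCast_pow hnm hn0.ne'
  have hup : ∀ v, g v ≤ C1 * C0 * T := by
    intro v
    refine le_of_pow_le_pow_left₀ hn0.ne' (by positivity) ?_
    have h1 : g v ^ dg k ≤ ∏ w, (C1 * g w) := by
      have h2 : g v ^ dg k = ∏ _w : Pl k, g v := by
        rw [Finset.prod_const, Finset.card_univ, card_pl]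
      rw [h2]
      exact Finset.prod_le_prod (fun _ _ => hg0 v) fun w _ => hgC v w
    rw [Finset.prod_mul_distrib, Finset.prod_const, Finset.card_univ, card_pl] at h1
    have h3 : C0 ≤ C0 ^ dg k := le_self_pow₀ hC0 hn0.ne'
    calc g v ^ dg k ≤ C1 ^ dg k * ∏ w, g w := h1
      _ ≤ C1 ^ dg k * (C0 * nm m) := mul_le_mul_of_nonneg_left hP2 (by positivity)
      _ ≤ C1 ^ dg k * (C0 ^ dg k * nm m) := mul_le_mul_of_nonneg_left
          (mul_le_mul_of_nonneg_right h3 hnm) (by positivity)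
      _ = (C1 * C0 * T) ^ dg k := by
          rw [mul_pow, mul_pow, hTn]
          ring
  have hlo : ∀ v, T ≤ C1 * g v := by
    intro v
    refine le_of_pow_le_pow_left₀ hn0.ne' (mul_nonneg (by linarith) (hg0 v)) ?_
    have h2 : (C1 * g v) ^ dg k = ∏ _w : Pl k, (C1 * g v) := by
      rw [Finset.prod_const, Finset.card_univ, card_pl]
    rw [hTn, h2]
    exact hP1.trans (Finset.prod_le_prod (fun w _ => hg0 w) fun w _ => hgC w v)
  set s : Pl k → ℝ := fun v => if 0 ≤ rv v (x : k) then 1 else -1 with hs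
  have hs1 : ∀ v, s v * s v = 1 := by
    intro v
    simp only [hs]
    split_ifs <;> norm_num
  have hs2 : ∀ v, rv v (x : k) = s v * g v := by
    intro v
    simp only [hs, hg]
    split_ifs with h
    · rw [abs_of_nonneg h, one_mul]
    · rw [abs_of_neg (not_le.1 h)]
      ring
  obtain ⟨ω, hω⟩ := hcov fun v => s v * (R + C1)
  refine ⟨x * ω, m.mul_mem_right _ hxm, fun v => ?_⟩
  have h1 : rv v (((x * ω : 𝓞 k)) : k) = g v * (s v * rv v (ω : k)) := by
    have h2 : ((x * ω : 𝓞 k) : k) = (x : k) * ω := map_mul (algebraMap (𝓞 k) k) _ _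
    rw [h2, map_mul, hs2 v]
    ring
  have h2 : |s v * rv v (ω : k) - (R + C1)| ≤ R := by
    have h3 : s v * rv v (ω : k) - (R + C1) = s v * (rv v (ω : k) - s v * (R + C1)) := by
      linear_combination (R + C1) * hs1 v
    have h4 : |s v| = 1 := by
      simp only [hs]
      split_ifs <;> norm_num
    rw [h3, abs_mul, h4, one_mul]
    exact hω v
  obtain ⟨h5, h6⟩ := abs_le.1 h2
  rw [h1]
  constructor
  · have h7 : C1 ≤ s v * rv v (ω : k) := by linarith
    calc T ≤ C1 * g v := hlo v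
      _ = g v * C1 := mul_comm _ _
      _ ≤ g v * (s v * rv v (ω : k)) := mul_le_mul_of_nonneg_left h7 (hg0 v)
  · have h7 : s v * rv v (ω : k) ≤ 2 * R + C1 := by linarith
    calc g v * (s v * rv v (ω : k)) ≤ g v * (2 * R + C1) :=
          mul_le_mul_of_nonneg_left h7 (hg0 v)
      _ ≤ C1 * C0 * T * (2 * R + C1) := mul_le_mul_of_nonneg_right (hup v) (by linarith)
      _ = C1 * C0 * (2 * R + C1) * T := by ring

end Pool.Agent.H14.CM4
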