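import Pool.Agent.H95.CM.Targets
import Pool.Agent.H14.CM4.CTPE

/-!
# Row C_DTW: the discriminant of a product basis
-/

set_option autoImplicit false

open MeasureTheory Set Filter NumberField
open scoped Real nonZeroDivisors Kronecker
open Pool.Agent.H65.CM4
open Pool.Agent.H95.CM
open Pool.Agent.H31.CN (IsLf)
open Pool.Agent.H61.FM (CC pv)

namespace Pool.Agent.H14.CM4

theorem discr_det {ι A B : Type} [CommRing A] [CommRing B] [Algebra A B] [Fintype ι]
    [DecidableEq ι] (b : ι → B) : Algebra.discr A b = (Algebra.traceMatrix A b).det := by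
  rw [Algebra.discr_def]

section

variable {k K : Type} [Field k] [NumberField k] [Field K] [NumberField K] [Algebra k K]

/-- the traces of the products -/
noncomputable def tm (e : Fin 2 → K) : Matrix (Fin 2) (Fin 2) k :=
  Matrix.of fun a b => Algebra.trace k K (e a * e b)

theorem discr_tower (e : Fin 2 → K) :
    Algebra.discr ℚ (fun i : Fin 2 × Module.Free.ChooseBasisIndex ℤ (𝓞 k) =>
      algebraMap k K (integralBasis k i.2) * e i.1) =
    (discr k : ℚ) ^ 2 * Algebra.norm ℚ (tm e : Matrix (Fin 2) (Fin 2) k).det := by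
  classical
  set ω := integralBasis k with hω
  set W := Algebra.traceMatrix ℚ ω with hW
  set L : k →ₐ[ℚ] Matrix (Module.Free.ChooseBasisIndex ℤ (𝓞 k))
    (Module.Free.ChooseBasisIndex ℤ (𝓞 k)) ℚ := Algebra.leftMulMatrix ω with hL
  have hWd : W.det = (discr k : ℚ) := by
    rw [coe_discr, discr_det]
  have hkey : ∀ (i j : Module.Free.ChooseBasisIndex ℤ (𝓞 k)) (t : k),
      Algebra.trace ℚ k (ω i * ω j * t) = ∑ l, W i l * L t l j := by
    intro i j t
    have h1 : ω i * ω j * t = ∑ l, (L t l j) • (ω i * ω l) := by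
      have h2 : t * ω j = ∑ l, (ω.repr (t * ω j) l) • ω l := (ω.sum_repr _).symm
      calc ω i * ω j * t = ω i * (t * ω j) := by ring
        _ = ω i * ∑ l, (ω.repr (t * ω j) l) • ω l := by rw [← h2]
        _ = ∑ l, (L t l j) • (ω i * ω l) := by
            rw [Finset.mul_sum]
            refine Finset.sum_congr rfl fun l _ => ?_
            rw [hL, Algebra.leftMulMatrix_eq_repr_mul, mul_smul_comm]
    rw [h1, map_sum]
    refine Finset.sum_congr rfl fun l _ => ?_
    rw [map_smul, smul_eq_mul, mul_comm]
    rfl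
  have hM : Algebra.traceMatrix ℚ (fun i : Fin 2 × Module.Free.ChooseBasisIndex ℤ (𝓞 k) =>
      algebraMap k K (ω i.2) * e i.1) =
      ((1 : Matrix (Fin 2) (Fin 2) ℚ) ⊗ₖ W) *
        ((tm e : Matrix (Fin 2) (Fin 2) k).map (L : k →+* _)).comp (Fin 2) (Fin 2)
          (Module.Free.ChooseBasisIndex ℤ (𝓞 k)) (Module.Free.ChooseBasisIndex ℤ (𝓞 k)) ℚ := by
    ext ⟨a, i⟩ ⟨b, j⟩
    rw [Algebra.traceMatrix_apply, Algebra.traceForm_apply, Matrix.mul_apply,
      Fintype.sum_prod_type]
    have h1 : Algebra.trace ℚ K (algebraMap k K (ω i) * e a * (algebraMap k K (ω j) * e b)) =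
        Algebra.trace ℚ k (ω i * ω j * Algebra.trace k K (e a * e b)) := by
      rw [← Algebra.trace_trace (S := k)]
      congr 1
      have h2 : algebraMap k K (ω i) * e a * (algebraMap k K (ω j) * e b) =
          (ω i * ω j) • (e a * e b) := by
        rw [Algebra.smul_def, map_mul]
        ring
      rw [h2, map_smul, smul_eq_mul]
    simp only
    rw [h1, hkey, Finset.sum_eq_single a]
    · refine Finset.sum_congr rfl fun l _ => ?_
      rw [Matrix.kronecker_apply, Matrix.one_apply_eq, one_mul]
      rfl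
    · intro c _ hc
      refine Finset.sum_eq_zero fun l _ => ?_
      rw [Matrix.kronecker_apply, Matrix.one_apply_ne (Ne.symm hc), zero_mul, zero_mul]
    · intro h
      exact absurd (Finset.mem_univ a) h
  rw [discr_det, hM, Matrix.det_mul, Matrix.det_kronecker, Matrix.det_one, one_pow, one_mul,
    hWd, Fintype.card_fin, ← Matrix.det_det, Algebra.norm_eq_matrix_det ω]
  rfl

theorem det_tm [Algebra.IsQuadraticExtension k K] (α β : K) (p q r : k)
    (h : ∀ x y : k, Algebra.norm k (algebraMap k K x * α +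
      algebraMap k K y * β) = p * x ^ 2 + q * (x * y) + r * y ^ 2) :
    (tm (fun i => if i = 0 then α else β) : Matrix (Fin 2) (Fin 2) k).det =
      -(4 * (p * r) - q ^ 2) := by
  classical
  set Ω := AlgebraicClosure K with hΩ
  have hcard : Fintype.card (K →ₐ[k] Ω) = 2 := by
    rw [AlgHom.card k K Ω]
    exact Algebra.IsQuadraticExtension.finrank_eq_two k K
  obtain ⟨σ, τ, hστ, huniv⟩ := Finset.card_eq_two.1 (by rw [Finset.card_univ]; exact hcard :
    (Finset.univ : Finset (K →ₐ[k] Ω)).card = 2)
  have htr : ∀ x : K, algebraMap k Ω (Algebra.trace k K x) = σ x + τ x := by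
    intro x
    rw [trace_eq_sum_embeddings, huniv, Finset.sum_pair hστ]
  have hnm : ∀ x : K, algebraMap k Ω (Algebra.norm k x) = σ x * τ x := by
    intro x
    rw [Algebra.norm_eq_prod_embeddings, huniv, Finset.prod_pair hστ]
  have hp : algebraMap k Ω p = σ α * τ α := by
    have h1 := h 1 0
    rw [map_one, map_zero, one_mul, zero_mul, add_zero] at h1
    rw [← hnm, h1]
    congr 1
    ring
  have hr : algebraMap k Ω r = σ β * τ β := by
    have h1 := h 0 1
    rw [map_one, map_zero, one_mul, zero_mul, zero_add] at h1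
    rw [← hnm, h1]
    congr 1
    ring
  have hq : algebraMap k Ω q = σ α * τ β + σ β * τ α := by
    have h1 := h 1 1
    rw [map_one, one_mul, one_mul] at h1
    have h2 := congrArg (algebraMap k Ω) h1
    rw [hnm, map_add, map_add] at h2
    simp only [one_pow, mul_one] at h2
    rw [map_add, map_add, hp, hr] at h2
    linear_combination -h2
  apply (algebraMap k Ω).injective
  rw [Matrix.det_fin_two]
  unfold tm
  simp only [Matrix.of_apply, if_true, one_ne_zero, if_false]
  rw [map_sub (algebraMap k Ω), map_mul (algebraMap k Ω), map_mul (algebraMap k Ω), htr, htr, htr,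
    htr, map_neg (algebraMap k Ω), map_sub (algebraMap k Ω), map_pow (algebraMap k Ω),
    map_mul (algebraMap k Ω), map_mul (algebraMap k Ω), hp, hq, hr]
  simp only [map_mul, map_ofNat]
  ring

end

theorem pf_DTW : T_DTW := by
  classical
  intro k K _ _ _ _ _ _ _ _ α β p q r h
  have h1 := discr_tower (k := k) (K := K) (fun i => if i = 0 then α else β)
  rw [h1, det_tm α β p q r h]
  push_cast
  rw [abs_mul, abs_pow]
  have h2 : |((discr k : ℤ) : ℝ)| = (dk k : ℝ) := by
    unfold dk
    rw [← Int.cast_abs, Int.abs_eq_natAbs, Int.cast_natCast]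
  rw [h2, prod_rv]
  congr 1
  rw [← neg_one_mul, map_mul]
  have h3 : Algebra.norm ℚ (-1 : k) = (-1) ^ Module.finrank ℚ k := by
    have h4 : (-1 : k) = algebraMap ℚ k (-1) := by
      rw [map_neg, map_one]
    rw [h4, Algebra.norm_algebraMap]
  rw [h3]
  push_cast
  rw [abs_mul, abs_pow, abs_neg, abs_one, one_pow, one_mul]

end Pool.Agent.H14.CM4
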