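import Pool.Agent.H95.CM.Targets

/-!
# Row C_IXL: the index of an intersection
-/

set_option autoImplicit false

open MeasureTheory Set Filter NumberField
open scoped Real nonZeroDivisors
open Pool.Agent.H65.CM4
open Pool.Agent.H95.CM
open Pool.Agent.H31.CN (IsLf)
open Pool.Agent.H61.FM (CC pv)

namespace Pool.Agent.H14.CM4

section

variable {k : Type} [Field k] [NumberField k]

theorem index_ideal (I : Ideal (𝓞 k)) : I.toAddSubgroup.index = Ideal.absNorm I := rfl

theorem absNorm_nat (b : ℕ) : Ideal.absNorm (Ideal.span {(b : 𝓞 k)}) = b ^ dg k := by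
  rw [Ideal.absNorm_span_singleton, Algebra.norm_natCast, RingOfIntegers.rank]
  simp [dg]

omit [NumberField k] in
theorem det_smul (u v : V2 k) (c : 𝓞 k) : det u (c • v) = c * det u v := by
  simp only [det, Prod.smul_fst, Prod.smul_snd, smul_eq_mul]
  ring

omit [NumberField k] in
theorem det_add (u v w : V2 k) : det u (v + w) = det u v + det u w := by
  simp only [det, Prod.fst_add, Prod.snd_add]
  ring

omit [NumberField k] in
theorem mem_Lw {I : Ideal (𝓞 k)} {u v : V2 k} : v ∈ Lw I u ↔ det u v ∈ I := Iff.rfl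

/-- the index of a lattice of lines -/
theorem ix_Lw {I : Ideal (𝓞 k)} {u : V2 k} (hu : Cop I u) : ix (Lw I u) = Ideal.absNorm I := by
  classical
  let φ : (𝓞 k × 𝓞 k) →+ (𝓞 k ⧸ I) :=
    { toFun := fun v => Ideal.Quotient.mk I (det u v)
      map_zero' := by simp [det]
      map_add' := fun v w => by rw [det_add, map_add] }
  have hker : φ.ker = (Lw I u).toAddSubgroup := by
    ext v
    rw [AddMonoidHom.mem_ker]
    change Ideal.Quotient.mk I (det u v) = 0 ↔ v ∈ Lw I u
    rw [Ideal.Quotient.eq_zero_iff_mem, mem_Lw]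
  have hsurj : Function.Surjective φ := by
    intro y
    obtain ⟨a, rfl⟩ := Ideal.Quotient.mk_surjective y
    have h1 : (1 : 𝓞 k) ∈ Ideal.span {u.1, u.2} ⊔ I := by
      rw [hu]
      exact Submodule.mem_top
    obtain ⟨p, hp, q, hq, hpq⟩ := Submodule.mem_sup.1 h1
    obtain ⟨x, y, hxy⟩ := Ideal.mem_span_pair.1 hp
    refine ⟨(-(y * a), x * a), ?_⟩
    change Ideal.Quotient.mk I (det u (-(y * a), x * a)) = Ideal.Quotient.mk I a
    rw [Ideal.Quotient.eq]
    have h2 : det u (-(y * a), x * a) - a = -(q * a) := by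
      simp only [det]
      linear_combination a * hxy + a * hpq
    rw [h2]
    exact I.neg_mem (I.mul_mem_right _ hq)
  unfold ix
  rw [← hker, AddSubgroup.index_ker, AddMonoidHom.range_eq_top.2 hsurj, AddSubgroup.card_top]
  rfl

end

theorem pf_IXL (hMEM : T_MEM) : T_IXL := by
  classical
  intro k _ _ _ b M I hb hM hI hbI
  have h1 : (1 : 𝓞 k) ∈ I ⊔ Ideal.span {(b : 𝓞 k)} := by
    rw [hbI]
    exact Submodule.mem_top
  obtain ⟨e, he, q, hq, heq⟩ := Submodule.mem_sup.1 h1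
  obtain ⟨c, hc⟩ := Ideal.mem_span_singleton.1 hq
  have hone : (1 : 𝓞 k) = e + b * c := by rw [← heq, hc]
  have hdvd : ix M ∣ b ^ (2 * dg k) := by
    have h2 : ((Ideal.span {(b : 𝓞 k)}).toAddSubgroup.prod
        (Ideal.span {(b : 𝓞 k)}).toAddSubgroup) ≤ M.toAddSubgroup := by
      rintro ⟨x, y⟩ ⟨hx, hy⟩
      obtain ⟨x', hx'⟩ := Ideal.mem_span_singleton.1 (show x ∈ Ideal.span {(b : 𝓞 k)} from hx)
      obtain ⟨y', hy'⟩ := Ideal.mem_span_singleton.1 (show y ∈ Ideal.span {(b : 𝓞 k)} from hy)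
      have h3 := hM (x', y')
      have h4 : (b : 𝓞 k) • ((x', y') : V2 k) = (x, y) := by
        rw [hx', hy']
        rfl
      rw [h4] at h3
      exact h3
    have h3 := AddSubgroup.index_dvd_of_le h2
    rw [AddSubgroup.index_prod, index_ideal, absNorm_nat, ← pow_add, ← two_mul] at h3
    exact h3
  have hpow : 0 < b ^ (2 * dg k) := pow_pos hb _
  have hcopr : ∀ x : 𝓞 k, (b : 𝓞 k) * x ∈ I → x ∈ I := by
    intro x hx
    have h2 : x = e * x + c * ((b : 𝓞 k) * x) := by
      linear_combination x * hone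
    rw [h2]
    exact I.add_mem (I.mul_mem_right _ he) (I.mul_mem_left _ hx)
  have hle : ∀ L ∈ Ls I, ∀ L' ∈ Ls I, M ⊓ L = M ⊓ L' → L ≤ L' := by
    intro L hL L' hL' hLL v hv
    obtain ⟨u, -, rfl⟩ := ((hMEM k).1 I L hI).1 hL
    obtain ⟨u', -, rfl⟩ := ((hMEM k).1 I L' hI).1 hL'
    have h2 : (b : 𝓞 k) • v ∈ M ⊓ Lw I u := ⟨hM v, (Lw I u).smul_mem _ hv⟩
    rw [hLL] at h2
    have h3 : det u' ((b : 𝓞 k) • v) ∈ I := h2.2
    rw [det_smul] at h3
    exact hcopr _ h3
  refine ⟨?_, Nat.le_of_dvd hpow hdvd, ?_, ?_⟩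
  · intro h
    rw [h, zero_dvd_iff] at hdvd
    exact hpow.ne' hdvd
  · intro L hL
    obtain ⟨u, hu, rfl⟩ := ((hMEM k).1 I L hI).1 hL
    have hsup : M.toAddSubgroup ⊔ (Lw I u).toAddSubgroup = ⊤ := by
      rw [eq_top_iff]
      intro v _
      rw [AddSubgroup.mem_sup]
      refine ⟨(b : 𝓞 k) • (c • v), hM _, e • v, ?_, ?_⟩
      · change det u (e • v) ∈ I
        rw [det_smul]
        exact I.mul_mem_right _ he
      · rw [smul_smul, ← add_smul, add_comm, ← hone, one_smul]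
    have h2 : (M ⊓ Lw I u).toAddSubgroup = M.toAddSubgroup ⊓ (Lw I u).toAddSubgroup := rfl
    unfold ix
    rw [h2, ← AddSubgroup.relIndex_mul_index (inf_le_left : M.toAddSubgroup ⊓
      (Lw I u).toAddSubgroup ≤ M.toAddSubgroup), AddSubgroup.inf_relIndex_left,
      ← AddSubgroup.relIndex_sup_right, hsup, AddSubgroup.relIndex_top_right, mul_comm]
    congr 1
    exact ix_Lw hu
  · intro L hL L' hL' hLL
    exact le_antisymm (hle L hL L' hL' hLL) (hle L' hL' L hL hLL.symm)

end Pool.Agent.H14.CM4
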