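import Pool.Agent.H95.CM.Targets

/-!
# Row C_VWB: two vectors of an ideal, of bounded index, balanced
-/

set_option autoImplicit false

open MeasureTheory Set Filter NumberField
open scoped Real nonZeroDivisors
open Pool.Agent.H65.CM4
open Pool.Agent.H95.CM
open Pool.Agent.H31.CN (IsLf)
open Pool.Agent.H61.FM (CC pv)

namespace Pool.Agent.H14.CM4

theorem coe_am {k K : Type} [Field k] [Field K] [Algebra k K] (a : 𝓞 k) :
    ((algebraMap (𝓞 k) (𝓞 K) a : 𝓞 K) : K) = algebraMap k K (a : k) := rfl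

theorem norm_unit_mul {K : Type} [Field K] [NumberField K] (u : (𝓞 K)ˣ) (x : K) :
    |((Algebra.norm ℚ (((u : 𝓞 K) : K) * x) : ℚ) : ℝ)| = |((Algebra.norm ℚ x : ℚ) : ℝ)| := by
  rw [map_mul]
  push_cast
  rw [abs_mul, ← Algebra.coe_norm_int]
  have h1 : IsUnit (Algebra.norm ℤ (u : 𝓞 K)) := u.isUnit.map _
  rcases Int.isUnit_iff.1 h1 with h | h
  · rw [h]
    norm_num
  · rw [h]
    norm_num

theorem sq_le_of_sqrt {a b c d C : ℝ} (ha : 0 < a) (hb : 0 < b)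
    (h : Real.sqrt a * |c| ≤ C * (Real.sqrt b * |d|)) : c ^ 2 * a ≤ C ^ 2 * (d ^ 2 * b) := by
  have h1 := mul_self_le_mul_self (by positivity) h
  have h2 : Real.sqrt a * |c| * (Real.sqrt a * |c|) = c ^ 2 * a := by
    have := Real.mul_self_sqrt ha.le
    have h3 := abs_mul_abs_self c
    calc Real.sqrt a * |c| * (Real.sqrt a * |c|) = (Real.sqrt a * Real.sqrt a) * (|c| * |c|) := by
          ring
      _ = c ^ 2 * a := by rw [this, h3]; ring
  have h4 : C * (Real.sqrt b * |d|) * (C * (Real.sqrt b * |d|)) = C ^ 2 * (d ^ 2 * b) := by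
    have := Real.mul_self_sqrt hb.le
    have h3 := abs_mul_abs_self d
    calc C * (Real.sqrt b * |d|) * (C * (Real.sqrt b * |d|)) =
          C ^ 2 * ((Real.sqrt b * Real.sqrt b) * (|d| * |d|)) := by ring
      _ = C ^ 2 * (d ^ 2 * b) := by rw [this, h3]; ring
  rw [h2, h4] at h1
  exact h1

theorem pf_VWB (hVWI : T_VWI) (hBAL : Pool.Agent.H95.CM.T_BAL) (hCOV : T_COV)
    (hNF2 : T_NF2) : T_VWB := by
  classical
  intro k _ _ _
  obtain ⟨b, C0, hb, hvwi⟩ := hVWI k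
  obtain ⟨C1, hC1, hbal⟩ := hBAL k
  obtain ⟨R, hR, hcov⟩ := hCOV k
  have hC1' : 1 ≤ C1 ^ 2 := one_le_pow₀ hC1
  refine ⟨b, C1 ^ 2 + 2 * R + |C0| + 1, hb, by positivity |> fun (h : 0 ≤ C1 ^ 2 + 2 * R + |C0|) =>
    by linarith, ?_⟩
  intro K _ _ _ _ _ I hI
  obtain ⟨v0, hv0, w0, hw0, hind, hlat, hnorm⟩ := hvwi K I hI
  obtain ⟨p0, q0, r0, -, -, hform, hpos⟩ := hNF2 k K (v0 : K) (w0 : K) hind
  set D0 : k := 4 * (p0 * r0) - q0 ^ 2 with hD0
  obtain ⟨u1, hu1⟩ := hbal (fun j => Real.sqrt (rv j p0)) fun j => Real.sqrt_pos.2 (hpos j).1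
  set U1 : k := ((u1 : 𝓞 k) : k) with hU1
  have hU1ne : U1 ≠ 0 := by
    intro h
    exact u1.ne_zero (RingOfIntegers.ext (h.trans (map_zero (algebraMap (𝓞 k) k)).symm))
  have hU1a : ∀ j : Pl k, 0 < |rv j U1| := fun j => abs_pos.2 ((map_ne_zero (rv j)).2 hU1ne)
  obtain ⟨u2, hu2⟩ := hbal (fun j => Real.sqrt (rv j D0) * |rv j U1|) fun j =>
    mul_pos (Real.sqrt_pos.2 (hpos j).2) (hU1a j)
  set U2 : k := ((u2 : 𝓞 k) : k) with hU2
  have hU2ne : U2 ≠ 0 := by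
    intro h
    exact u2.ne_zero (RingOfIntegers.ext (h.trans (map_zero (algebraMap (𝓞 k) k)).symm))
  obtain ⟨t, ht⟩ := hcov fun j => -(rv j (q0 * (U1 * U2)) / (2 * rv j (U1 ^ 2 * p0)))
  set T : k := (t : k) with hT
  set v : 𝓞 K := algebraMap (𝓞 k) (𝓞 K) u1 * v0 with hv
  set w : 𝓞 K := algebraMap (𝓞 k) (𝓞 K) u2 * w0 + algebraMap (𝓞 k) (𝓞 K) t * v with hw
  have hvK : (v : K) = algebraMap k K U1 * v0 := by
    rw [hv]
    exact map_mul (algebraMap (𝓞 K) K) _ _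
  have hwK : (w : K) = algebraMap k K U2 * w0 + algebraMap k K T * (algebraMap k K U1 * v0) := by
    have h1 : (w : K) = ((algebraMap (𝓞 k) (𝓞 K) u2 : 𝓞 K) : K) * w0 +
        ((algebraMap (𝓞 k) (𝓞 K) t : 𝓞 K) : K) * (v : K) := by
      rw [hw]
      exact (map_add (algebraMap (𝓞 K) K) _ _).trans (by rw [map_mul, map_mul])
    rw [h1, hvK, coe_am, coe_am]
  have hcomb : ∀ x y : k, algebraMap k K x * (v : K) + algebraMap k K y * (w : K) =
      algebraMap k K ((x + T * y) * U1) * v0 + algebraMap k K (y * U2) * w0 := by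
    intro x y
    rw [hvK, hwK, map_mul, map_mul, map_add, map_mul]
    ring
  refine ⟨v, I.mul_mem_left _ hv0, w, I.add_mem (I.mul_mem_left _ hw0)
    (I.mul_mem_left _ (I.mul_mem_left _ hv0)), ?_, ?_, ?_, ?_⟩
  · intro x y hxy
    rw [hcomb] at hxy
    obtain ⟨h1, h2⟩ := hind _ _ hxy
    have hy : y = 0 := (mul_eq_zero.1 h2).resolve_right hU2ne
    have hx := (mul_eq_zero.1 h1).resolve_right hU1ne
    rw [hy, mul_zero, add_zero] at hx
    exact ⟨hx, hy⟩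
  · intro x hx
    obtain ⟨u, hu⟩ := hlat x hx
    set y2 : 𝓞 k := ((u2⁻¹ : (𝓞 k)ˣ) : 𝓞 k) * u.2 with hy2
    set y1 : 𝓞 k := ((u1⁻¹ : (𝓞 k)ˣ) : 𝓞 k) * u.1 - t * y2 with hy1
    refine ⟨(y1, y2), ?_⟩
    rw [hu]
    unfold lin
    rw [hcomb]
    have h1 : ((y1 : 𝓞 k) : k) + T * ((y2 : 𝓞 k) : k) =
        ((((u1⁻¹ : (𝓞 k)ˣ) : 𝓞 k) * u.1 : 𝓞 k) : k) := by
      have h2 : y1 + t * y2 = ((u1⁻¹ : (𝓞 k)ˣ) : 𝓞 k) * u.1 := by
        rw [hy1]
        ring
      rw [← h2]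
      exact ((map_add (algebraMap (𝓞 k) k) y1 (t * y2)).trans (by rw [map_mul])).symm
    have h3 : (((y1 : 𝓞 k) : k) + T * ((y2 : 𝓞 k) : k)) * U1 = (u.1 : k) := by
      rw [h1, hU1, ← map_mul (algebraMap (𝓞 k) k)]
      congr 1
      calc ((u1⁻¹ : (𝓞 k)ˣ) : 𝓞 k) * u.1 * (u1 : 𝓞 k) =
            (((u1⁻¹ : (𝓞 k)ˣ) : 𝓞 k) * (u1 : 𝓞 k)) * u.1 := by ring
        _ = u.1 := by rw [Units.inv_mul, one_mul]
    have h4 : ((y2 : 𝓞 k) : k) * U2 = (u.2 : k) := by
      rw [hU2, ← map_mul (algebraMap (𝓞 k) k)]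
      congr 1
      calc y2 * (u2 : 𝓞 k) = (((u2⁻¹ : (𝓞 k)ˣ) : 𝓞 k) * (u2 : 𝓞 k)) * u.2 := by
            rw [hy2]
            ring
        _ = u.2 := by rw [Units.inv_mul, one_mul]
    simp only [h3, h4]
  · have h1 : |((Algebra.norm ℚ (v : K) : ℚ) : ℝ)| = |((Algebra.norm ℚ (v0 : K) : ℚ) : ℝ)| := by
      rw [hvK]
      exact norm_unit_mul (Units.map (algebraMap (𝓞 k) (𝓞 K)).toMonoidHom u1) (v0 : K)
    rw [h1]
    have h2 : 0 ≤ Real.sqrt |(discr K : ℝ)| * nm I := by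
      unfold nm
      positivity
    refine hnorm.trans (mul_le_mul_of_nonneg_right ?_ h2)
    have h3 := le_abs_self C0
    nlinarith
  · intro p q r hpqr
    have hform' : ∀ x y : k, p * x ^ 2 + q * (x * y) + r * y ^ 2 =
        p0 * ((x + T * y) * U1) ^ 2 + q0 * (((x + T * y) * U1) * (y * U2)) +
          r0 * (y * U2) ^ 2 := by
      intro x y
      rw [← hpqr, hcomb, hform]
    have hp : p = U1 ^ 2 * p0 := by
      have h1 := hform' 1 0
      linear_combination h1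
    have hr : r = T ^ 2 * (U1 ^ 2 * p0) + T * (q0 * (U1 * U2)) + r0 * U2 ^ 2 := by
      have h1 := hform' 0 1
      linear_combination h1
    have hq : q = 2 * T * (U1 ^ 2 * p0) + q0 * (U1 * U2) := by
      have h1 := hform' 1 1
      linear_combination h1 - hp - hr
    have hD : 4 * (p * r) - q ^ 2 = (U1 * U2) ^ 2 * D0 := by
      rw [hp, hq, hr, hD0]
      ring
    intro i j
    have hpp : ∀ j : Pl k, 0 < rv j (U1 ^ 2 * p0) := by
      intro j
      rw [map_mul, map_pow]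
      have := hU1a j
      have h2 : rv j U1 ≠ 0 := (map_ne_zero (rv j)).2 hU1ne
      exact mul_pos (by positivity) (hpos j).1
    have hCC : C1 ^ 2 ≤ C1 ^ 2 + 2 * R + |C0| + 1 := by
      have := abs_nonneg C0
      linarith
    refine ⟨?_, ?_, ?_⟩
    · rw [hp]
      have h1 := sq_le_of_sqrt (hpos i).1 (hpos j).1 (hu1 i j)
      have h2 := hpp j
      rw [map_mul, map_pow] at h2 ⊢
      rw [map_mul, map_pow]
      exact h1.trans (mul_le_mul_of_nonneg_right hCC h2.le)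
    · rw [hD]
      have h1 : Real.sqrt (rv i D0) * |rv i U1 * rv i U2| ≤
          C1 * (Real.sqrt (rv j D0) * |rv j U1 * rv j U2|) := by
        have h3 := hu2 i j
        rw [abs_mul, abs_mul, ← mul_assoc, ← mul_assoc (Real.sqrt (rv j D0))]
        exact h3
      have h4 := sq_le_of_sqrt (hpos i).2 (hpos j).2 h1
      have h5 : ∀ j : Pl k, rv j ((U1 * U2) ^ 2 * D0) =
          (rv j U1 * rv j U2) ^ 2 * rv j D0 := by
        intro j
        rw [map_mul, map_pow, map_mul]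
      rw [h5, h5]
      exact h4.trans (mul_le_mul_of_nonneg_right hCC
        (mul_nonneg (sq_nonneg _) (hpos j).2.le))
    · rw [hq, hp]
      have h1 := hpp i
      have h2 := ht i
      have h3 : rv i (2 * T * (U1 ^ 2 * p0) + q0 * (U1 * U2)) =
          2 * rv i (U1 ^ 2 * p0) * (rv i T -
            -(rv i (q0 * (U1 * U2)) / (2 * rv i (U1 ^ 2 * p0)))) := by
        rw [map_add, map_mul, map_mul (rv i) 2 T, map_ofNat]
        field_simp
        ring
      rw [h3, abs_mul, abs_of_pos (by positivity)]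
      have h4 : 2 * R ≤ C1 ^ 2 + 2 * R + |C0| + 1 := by
        have := abs_nonneg C0
        linarith
      calc 2 * rv i (U1 ^ 2 * p0) * |rv i T -
            -(rv i (q0 * (U1 * U2)) / (2 * rv i (U1 ^ 2 * p0)))|
          ≤ 2 * rv i (U1 ^ 2 * p0) * R := mul_le_mul_of_nonneg_left h2 (by positivity)
        _ = 2 * R * rv i (U1 ^ 2 * p0) := by ring
        _ ≤ (C1 ^ 2 + 2 * R + |C0| + 1) * rv i (U1 ^ 2 * p0) :=
            mul_le_mul_of_nonneg_right h4 h1.le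

end Pool.Agent.H14.CM4
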