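import Pool.Agent.H23.CM4.Targets
import Pool.Agent.H29.THC.DFV

/-!
# The coefficients are small (DVB)
-/

set_option autoImplicit false

open NumberField MeasureTheory Set Filter Complex
open scoped nonZeroDivisors Real

namespace Pool.Agent.H14.CM4

open Pool.Agent.H23.CM4
open Pool.Agent.H61.FM (CC pv Sp lm Nn)
open Pool.Agent.H65.CM4 (gG Kc Sq nm dg)

theorem dvb_pv {K : Type} [Field K] [NumberField K] (ψ : CC K) (J : (Ideal (𝓞 K))⁰) :
    ‖pv ψ J‖ = 1 := by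
  unfold pv
  have h1 : ((ψ (ClassGroup.mk0 J) : ℂˣ) : ℂ) ^ Fintype.card (ClassGroup (𝓞 K)) = 1 := by
    rw [← Units.val_pow_eq_pow_val, ← map_pow, pow_card_eq_one, map_one, Units.val_one]
  exact Complex.norm_eq_one_of_pow_eq_one h1 Fintype.card_ne_zero

theorem pf_DVB (hJDM : T_JDM) : T_DVB := by
  classical
  intro k _ _ ε hε
  obtain ⟨C, hC⟩ := Pool.Agent.H29.THC.pf_DV (dg k * 2) (ε / 2) (by positivity)
  refine ⟨max C 1, lt_max_of_lt_right one_pos, ?_⟩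
  intro K _ _ _ hK ψ I hI
  have h0 := (hJDM k).2.2.2.2 K I
  have hmap : I.map (algebraMap (𝓞 k) (𝓞 K)) ≠ ⊥ := by
    intro h
    rw [Ideal.map_eq_bot_iff_of_injective
      (FaithfulSMul.algebraMap_injective (𝓞 k) (𝓞 K))] at h
    exact hI h
  have hrk : Module.finrank ℚ K = dg k * 2 := by
    rw [dg, ← hK.rk, Module.finrank_mul_finrank]
  have h1 : ‖lr k ψ I‖ ≤ ((Nr k K I).card : ℝ) := by
    unfold lr
    refine (norm_sum_le _ _).trans ?_
    rw [Finset.sum_congr rfl (fun J _ => dvb_pv ψ J)]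
    simp
  have h2 : (Nr k K I).card ≤
      (Pool.Agent.H29.TC.dvs K (I.map (algebraMap (𝓞 k) (𝓞 K)))).card := by
    refine Finset.card_le_card_of_injOn (fun J : (Ideal (𝓞 K))⁰ => (J : Ideal (𝓞 K))) ?_ ?_
    · intro J hJ
      have h3 := (h0 J).1 hJ
      have h4 := Pool.Agent.H29.THC.pf_DF K (I.map (algebraMap (𝓞 k) (𝓞 K))) hmap
        (J : Ideal (𝓞 K))
      refine Finset.mem_coe.mpr (h4.2 ?_)
      rw [Ideal.map_le_iff_le_comap, ← h3]
      exact Ideal.relNorm_le_comap (𝓞 k) _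
    · intro J _ J' _ h
      exact Subtype.ext h
  have h3 : (Pool.Agent.H23.LB.Nf K (I.map (algebraMap (𝓞 k) (𝓞 K)))) = nm I ^ 2 := by
    unfold Pool.Agent.H23.LB.Nf nm
    rw [Ideal.absNorm_algebraMap, ← IsFractionRing.finrank_eq (𝓞 k) k (𝓞 K) K, hK.rk]
    push_cast
    rfl
  have h4 := hC K hrk _ hmap
  rw [h3] at h4
  have hn : 0 ≤ nm I := by
    unfold nm
    positivity
  have h5 : (nm I ^ 2) ^ (ε / 2) = nm I ^ ε := by
    rw [← Real.rpow_natCast, ← Real.rpow_mul hn]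
    congr 1
    push_cast
    ring
  rw [h5] at h4
  calc ‖lr k ψ I‖ ≤ ((Nr k K I).card : ℝ) := h1
    _ ≤ ((Pool.Agent.H29.TC.dvs K (I.map (algebraMap (𝓞 k) (𝓞 K)))).card : ℝ) := by
        exact_mod_cast h2
    _ ≤ C * nm I ^ ε := h4
    _ ≤ max C 1 * nm I ^ ε := mul_le_mul_of_nonneg_right (le_max_left _ _)
        (Real.rpow_nonneg hn _)

end Pool.Agent.H14.CM4
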