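import Pool.Agent.H23.CM4.Targets

/-!
# The Gamma factor (GGE)
-/

set_option autoImplicit false

open NumberField MeasureTheory Set Filter Complex
open scoped nonZeroDivisors Real

namespace Pool.Agent.H14.CM4

open Pool.Agent.H23.CM4
open Pool.Agent.H65.CM4 (gG Kc Sq nm dg)

theorem gge_two_pi_ne : (2 * (π : ℂ)) ≠ 0 := by
  have := Real.pi_pos.ne'
  exact mul_ne_zero two_ne_zero (by exact_mod_cast this)

theorem pf_GGE : T_GGE := by
  refine ⟨?_, ?_, ?_⟩
  · intro s hs
    have hne : ∀ m : ℕ, s ≠ -m := by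
      intro m h
      rw [h] at hs
      simp only [neg_re, natCast_re, Left.neg_pos_iff] at hs
      exact absurd hs (not_lt.mpr (Nat.cast_nonneg m))
    refine ⟨?_, ?_⟩
    · have h1 : DifferentiableAt ℂ (fun s : ℂ => s * (s - 1) * Complex.Gamma s *
          (2 * (π : ℂ)) ^ (-s)) s := by
        refine ((differentiableAt_id.mul (differentiableAt_id.sub_const 1)).mul
          (Complex.differentiableAt_Gamma s hne)).mul ?_
        exact DifferentiableAt.const_cpow differentiableAt_id.neg (Or.inl gge_two_pi_ne)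
      exact h1
    · intro h1
      have h0 : s ≠ 0 := by
        intro h
        rw [h] at hs
        simp at hs
      unfold gG
      refine mul_ne_zero (mul_ne_zero (mul_ne_zero h0 (sub_ne_zero.mpr h1))
        (Complex.Gamma_ne_zero_of_re_pos hs)) ?_
      rw [Ne, Complex.cpow_eq_zero_iff]
      exact fun h => gge_two_pi_ne h.1
  · intro s _ _
    rw [gG, Gammaℂ_def]
    ring
  · refine ⟨fun s => (2 * (π : ℂ)) ^ s * (Complex.Gamma (s + 1))⁻¹, ?_, ?_⟩
    · have h1 : Differentiable ℂ (fun s : ℂ => (Complex.Gamma (s + 1))⁻¹) :=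
        Complex.differentiable_one_div_Gamma.comp (differentiable_id.add_const 1)
      have h2 : Differentiable ℂ (fun s : ℂ => (2 * (π : ℂ)) ^ s) := fun s =>
        DifferentiableAt.const_cpow differentiableAt_id (Or.inl gge_two_pi_ne)
      exact h2.mul h1
    · intro s hs
      have h0 : s ≠ 0 := by
        intro h
        rw [h] at hs
        simp at hs
      have h1 := Complex.Gamma_ne_zero_of_re_pos hs
      have h2 : (2 * (π : ℂ)) ^ s * (2 * (π : ℂ)) ^ (-s) = 1 := by
        rw [← Complex.cpow_add _ _ gge_two_pi_ne, add_neg_cancel, Complex.cpow_zero]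
      show (2 * (π : ℂ)) ^ s * (Complex.Gamma (s + 1))⁻¹ * gG s = s - 1
      rw [gG, Complex.Gamma_add_one s h0]
      calc (2 * (π : ℂ)) ^ s * (s * Complex.Gamma s)⁻¹ *
            (s * (s - 1) * Complex.Gamma s * (2 * (π : ℂ)) ^ (-s)) =
          ((2 * (π : ℂ)) ^ s * (2 * (π : ℂ)) ^ (-s)) *
            ((s * Complex.Gamma s)⁻¹ * (s * Complex.Gamma s)) * (s - 1) := by ring
        _ = s - 1 := by
          rw [h2, inv_mul_cancel₀ (mul_ne_zero h0 h1)]
          ring

end Pool.Agent.H14.CM4
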