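import Pool.Agent.H65.CM4.Targets1

/-!
# Row HG: the sum of the weights of the blocks, general vectors (after H29/FM/HG)
-/

set_option autoImplicit false

open MeasureTheory Set Filter NumberField NumberField.InfinitePlace Pool.Agent.H65.CM4
open scoped Real

namespace Pool.Agent.H14.CM4

variable (k : Type) [Field k] [NumberField k] [IsTotallyReal k]

omit [IsTotallyReal k] in
theorem one_le_nm {I : Ideal (𝓞 k)} (hI : I ≠ ⊥) : 1 ≤ nm I := by
  unfold nm
  have h : Ideal.absNorm I ≠ 0 := by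
    rw [Ne, Ideal.absNorm_eq_zero_iff]
    exact hI
  exact_mod_cast Nat.pos_of_ne_zero h

omit [IsTotallyReal k] in
/-- The sum of `1 / nm f` over the pairs `(f, l)` with `nm f * 2^l ≤ A`. -/
theorem sum_blocks (C : ℝ) (A : ℝ) (hA : 1 ≤ A)
    (hId : ∀ I : Ideal (𝓞 k), I ∈ Id k A ↔ I ≠ ⊥ ∧ nm I ≤ A)
    (hsum : ∑ I ∈ Id k A, 1 / nm I ≤ C * (1 + Real.log A)) (P : Finset (Ideal (𝓞 k) × ℕ))
    (hP : ∀ b ∈ P, b.1 ≠ ⊥ ∧ nm b.1 * 2 ^ b.2 ≤ A) :
    ∑ b ∈ P, 1 / nm b.1 ≤ 2 * C * (1 + Real.log A) ^ 2 := by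
  have hlog : 0 ≤ Real.log A := Real.log_nonneg hA
  have hsub : P ⊆ Id k A ×ˢ Finset.range (⌊2 * Real.log A⌋₊ + 1) := by
    intro b hb
    obtain ⟨h1, h2⟩ := hP b hb
    have h1' : 1 ≤ nm b.1 := one_le_nm k h1
    have h2k : (1 : ℝ) ≤ 2 ^ b.2 := one_le_pow₀ (by norm_num)
    rw [Finset.mem_product, hId, Finset.mem_range]
    refine ⟨⟨h1, ?_⟩, Nat.lt_succ_of_le (Nat.le_floor ?_)⟩
    · nlinarith
    · have h3 : (2 : ℝ) ^ b.2 ≤ A := by nlinarith
      have h4 := Real.log_le_log (by positivity) h3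
      rw [Real.log_pow] at h4
      have h5 : (1 / 2 : ℝ) ≤ Real.log 2 := by
        have := Real.log_two_gt_d9
        linarith
      have h6 : (0 : ℝ) ≤ b.2 := Nat.cast_nonneg _
      nlinarith
  have hnn : ∀ I : Ideal (𝓞 k), 0 ≤ 1 / nm I := fun I => by
    unfold nm
    positivity
  have h1 : ∑ b ∈ P, 1 / nm b.1 ≤
      ∑ b ∈ Id k A ×ˢ Finset.range (⌊2 * Real.log A⌋₊ + 1), 1 / nm b.1 :=
    Finset.sum_le_sum_of_subset_of_nonneg hsub fun b _ _ => hnn b.1
  refine h1.trans ?_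
  rw [Finset.sum_product' (f := fun (x : Ideal (𝓞 k)) (_ : ℕ) => 1 / nm x)]
  simp only [Finset.sum_const, Finset.card_range, nsmul_eq_mul]
  rw [← Finset.mul_sum]
  have h3 : ((⌊2 * Real.log A⌋₊ + 1 : ℕ) : ℝ) ≤ 2 * (1 + Real.log A) := by
    push_cast
    have := Nat.floor_le (by positivity : 0 ≤ 2 * Real.log A)
    linarith
  have h4 : 0 ≤ ∑ I ∈ Id k A, 1 / nm I := Finset.sum_nonneg fun i _ => hnn i
  calc ((⌊2 * Real.log A⌋₊ + 1 : ℕ) : ℝ) * ∑ I ∈ Id k A, 1 / nm I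
      ≤ (2 * (1 + Real.log A)) * (C * (1 + Real.log A)) :=
        mul_le_mul h3 hsum h4 (by positivity)
    _ = 2 * C * (1 + Real.log A) ^ 2 := by ring

/-- Row HG. -/
theorem pf_HG (hNW : T_NW k) (hWSM : T_WSM k) (hIDC : T_IDC k) : T_HG k := by
  classical
  obtain ⟨C2, hC2, hN⟩ := hNW
  obtain ⟨C, hC, hW⟩ := hWSM
  obtain ⟨hId, -, C3, hC3, hId2⟩ := hIDC
  intro R C₁ hC₁
  have hlC : 0 ≤ Real.log (2 * C₁) := Real.log_nonneg (by linarith)
  set K : ℝ := 1 + Real.log (2 * C₁) with hK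
  have hK1 : 1 ≤ K := by linarith
  refine ⟨(2 * C2 * C₁ + C * K) * (2 * C3), by positivity, fun r A η T hr hA hη hT => ?_⟩
  have hlog : 0 ≤ Real.log A := Real.log_nonneg hA
  have hA0 : 0 < A := by linarith
  set P : Finset (Ideal (𝓞 k) × ℕ) := T.image (fun a => a.2) with hP
  have hmaps : ∀ a ∈ T, a.2 ∈ P := fun a ha => Finset.mem_image_of_mem _ ha
  have hPp : ∀ b ∈ P, b.1 ≠ ⊥ ∧ nm b.1 * 2 ^ b.2 ≤ A := by
    intro b hb
    obtain ⟨a, ha, rfl⟩ := Finset.mem_image.1 hb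
    exact ⟨(hT a ha).2.2.1, (hT a ha).2.2.2.2⟩
  rw [← Finset.sum_fiberwise_of_maps_to hmaps]
  have hinner : ∀ b ∈ P, ∑ a ∈ T.filter (fun a => a.2 = b), hw r η a ≤
      ((2 * C2 * C₁ + C * K) * ((1 + η * A) * (1 + Real.log A))) * (1 / nm b.1) := by
    rintro ⟨f, l⟩ hb
    obtain ⟨hf, hfk⟩ := hPp _ hb
    simp only at hf hfk ⊢
    have hf' : 1 ≤ nm f := one_le_nm k hf
    have hf0 : 0 < nm f := by linarith
    have h2k : (1 : ℝ) ≤ 2 ^ l := one_le_pow₀ (by norm_num)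
    have h2k0 : (0 : ℝ) < 2 ^ l := by positivity
    set F : Finset (V2 k) := (T.filter (fun a => a.2 = (f, l))).image (fun a => a.1) with hF
    have hsum : ∑ a ∈ T.filter (fun a => a.2 = (f, l)), hw r η a =
        ∑ w ∈ F, hw r η (w, (f, l)) := by
      rw [hF, Finset.sum_image]
      · refine Finset.sum_congr rfl fun a ha => ?_
        have h := (Finset.mem_filter.1 ha).2
        have : a = (a.1, (f, l)) := by rw [← h]
        rw [this]
      · intro a ha b' hb' h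
        have h1 := (Finset.mem_filter.1 ha).2
        have h2 := (Finset.mem_filter.1 hb').2
        exact Prod.ext h (h1.trans h2.symm)
    set X : ℝ := 2 * C₁ * 2 ^ l / nm f with hX
    have hFp : ∀ w ∈ F, w ∈ R.W ∧ w.2 ≠ 0 ∧ nn r w ≤ X := by
      intro w hw'
      obtain ⟨a, ha, rfl⟩ := Finset.mem_image.1 hw'
      obtain ⟨haT, ha2⟩ := Finset.mem_filter.1 ha
      obtain ⟨h0, h1, _, h3, _⟩ := hT a haT
      refine ⟨h0, h1, ?_⟩
      rw [ha2] at h3
      simp only at h3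
      rw [hX, le_div_iff₀ hf0]
      linarith
    have hX0 : 0 ≤ X := by positivity
    have hRHS : 0 ≤ ((2 * C2 * C₁ + C * K) * ((1 + η * A) * (1 + Real.log A))) *
        (1 / nm f) := by
      positivity
    rw [hsum]
    by_cases hne : F.Nonempty
    swap
    · rw [Finset.not_nonempty_iff_eq_empty.1 hne, Finset.sum_empty]
      exact hRHS
    obtain ⟨hcard, hge⟩ := hN R r X F hr hX0 hFp
    have hge1 : ∀ w ∈ F, 1 ≤ nn r w := fun w hw' => (one_le_pow₀ hr).trans (hge w hw')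
    have hR1 : 1 ≤ X := by
      obtain ⟨w, hw'⟩ := hne
      exact (hge1 w hw').trans (hFp w hw').2.2
    have hws := hW R r X F hr hR1 hFp
    have hexp : ∑ w ∈ F, hw r η (w, (f, l)) =
        (F.card : ℝ) / 2 ^ l + η * 2 ^ l * ∑ w ∈ F, 1 / nn r w := by
      rw [Finset.mul_sum, Finset.card_eq_sum_ones]
      push_cast
      rw [Finset.sum_div, ← Finset.sum_add_distrib]
      refine Finset.sum_congr rfl fun w _ => ?_
      unfold hw
      have h4 : (4 : ℝ) ^ l = 2 ^ l * 2 ^ l := by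
        rw [← mul_pow]; norm_num
      simp only
      rw [h4]
      field_simp
    rw [hexp]
    have hb1 : (F.card : ℝ) / 2 ^ l ≤ 2 * C2 * C₁ * (1 / nm f) := by
      rw [div_le_iff₀ h2k0]
      calc (F.card : ℝ) ≤ C2 * X := hcard
        _ = 2 * C2 * C₁ * (1 / nm f) * 2 ^ l := by rw [hX]; ring
    have hlogR : 1 + Real.log X ≤ K * (1 + Real.log A) := by
      have h1 : X ≤ 2 * C₁ * A := by
        rw [hX, div_le_iff₀ hf0]
        have h3 : (2 : ℝ) ^ l ≤ A * nm f := by nlinarith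
        calc 2 * C₁ * 2 ^ l ≤ 2 * C₁ * (A * nm f) :=
              mul_le_mul_of_nonneg_left h3 (by positivity)
          _ = 2 * C₁ * A * nm f := by ring
      have h2 := Real.log_le_log (by linarith) h1
      rw [Real.log_mul (by positivity) hA0.ne'] at h2
      rw [hK]
      nlinarith
    have h2kA : (2 : ℝ) ^ l ≤ A * (1 / nm f) := by
      rw [mul_one_div, le_div_iff₀ hf0]
      linarith
    have hb2 : η * 2 ^ l * ∑ w ∈ F, 1 / nn r w ≤
        (η * (A * (1 / nm f))) * (C * (K * (1 + Real.log A))) := by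
      have hs0 : 0 ≤ ∑ w ∈ F, 1 / nn r w := by
        refine Finset.sum_nonneg fun w hw' => ?_
        have := hge1 w hw'
        positivity
      refine mul_le_mul (mul_le_mul_of_nonneg_left h2kA hη) ?_ hs0 (by positivity)
      exact hws.trans (mul_le_mul_of_nonneg_left hlogR (by linarith))
    have hηA : 0 ≤ η * A := by positivity
    calc (F.card : ℝ) / 2 ^ l + η * 2 ^ l * ∑ w ∈ F, 1 / nn r w
        ≤ 2 * C2 * C₁ * (1 / nm f) + (η * (A * (1 / nm f))) * (C * (K * (1 + Real.log A))) :=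
          add_le_add hb1 hb2
      _ = (2 * C2 * C₁ * 1 + C * K * ((η * A) * (1 + Real.log A))) * (1 / nm f) := by ring
      _ ≤ ((2 * C2 * C₁ + C * K) * ((1 + η * A) * (1 + Real.log A))) * (1 / nm f) := by
          refine mul_le_mul_of_nonneg_right ?_ (by positivity)
          have h1 : 1 ≤ (1 + η * A) * (1 + Real.log A) := by nlinarith
          have h2 : (η * A) * (1 + Real.log A) ≤ (1 + η * A) * (1 + Real.log A) := by
            nlinarith
          rw [add_mul]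
          exact add_le_add (mul_le_mul_of_nonneg_left h1 (by positivity))
            (mul_le_mul_of_nonneg_left h2 (by positivity))
  refine (Finset.sum_le_sum hinner).trans ?_
  rw [← Finset.mul_sum]
  have hsb := sum_blocks k C3 A hA (hId A) (hId2 A hA).2 P hPp
  have hpos : 0 ≤ (2 * C2 * C₁ + C * K) * ((1 + η * A) * (1 + Real.log A)) := by positivity
  calc ((2 * C2 * C₁ + C * K) * ((1 + η * A) * (1 + Real.log A))) * ∑ b ∈ P, 1 / nm b.1
      ≤ ((2 * C2 * C₁ + C * K) * ((1 + η * A) * (1 + Real.log A))) *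
        (2 * C3 * (1 + Real.log A) ^ 2) := mul_le_mul_of_nonneg_left hsb hpos
    _ = (2 * C2 * C₁ + C * K) * (2 * C3) * (1 + η * A) * (1 + Real.log A) ^ 3 := by ring

end Pool.Agent.H14.CM4
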