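import Pool.Agent.H16.HK.PS
import Pool.Agent.H12.RC.GS
import Pool.Agent.H42.RC.GA
import Pool.Agent.H33.RC.F1
import Pool.Agent.H68.RC.PO

/-!
# Poisson summation for Gaussians, with a shift and a character (an upper bound)
-/

set_option autoImplicit false

open MeasureTheory Set

namespace Pool.Agent.H14.CM4

open Pool.Agent.H25.HK Pool.Agent.H25 Pool.Agent.H28.RC

theorem gj_empty {ι : Type} [Fintype ι] (u : ι → ℝ) :
    gj (∅ : Finset ι) u = Real.exp (-Real.pi * ∑ i, u i ^ 2) := by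
  unfold gj
  rw [Finset.prod_empty, one_mul]

theorem gj_pos {ι : Type} [Fintype ι] (u : ι → ℝ) : 0 < gj (∅ : Finset ι) u := by
  rw [gj_empty]
  exact Real.exp_pos _

theorem gj_summable {ι : Type} [Fintype ι] [DecidableEq ι] (A : Matrix ι ι ℝ) (hA : A.det ≠ 0)
    (x₀ : ι → ℝ) :
    Summable (fun m : ι → ℤ => gj ∅ (A.mulVec (fun i => (m i : ℝ) + x₀ i))) := by
  obtain ⟨B, hB, hB2⟩ := Pool.Agent.H12.RC.pf_GS ι A ∅ hA x₀
  refine Summable.of_nonneg_of_le (fun m => (gj_pos _).le) (fun m => ?_) hB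
  have h := hB2 m (fun _ => 0) (fun i => ⟨le_rfl, zero_le_one⟩)
  rw [abs_of_pos (gj_pos _)] at h
  simpa using h

theorem psx {ι : Type} [Fintype ι] [DecidableEq ι] (A : Matrix ι ι ℝ) (hA : A.det ≠ 0)
    (x₀ ξ : ι → ℝ) :
    ‖∑' m : ι → ℤ, ((gj ∅ (A.mulVec (fun i => (m i : ℝ) + x₀ i)) : ℝ) : ℂ) *
      Complex.exp ((2 * Real.pi * (∑ i, (m i : ℝ) * ξ i) : ℝ) * Complex.I)‖ ≤
    |A.det|⁻¹ * ∑' m : ι → ℤ, gj ∅ ((A⁻¹).transpose.mulVec (fun i => (m i : ℝ) - ξ i)) := by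
  have h1 := Pool.Agent.H16.HK.ps
  have h2 := Pool.Agent.H42.RC.pf_GA Pool.Agent.H33.RC.pf_F1
  have hA' : (A⁻¹).transpose.det ≠ 0 := by
    rw [Matrix.det_transpose, Matrix.det_nonsing_inv]
    simpa using hA
  have k2 : Summable (fun m : ι → ℤ =>
      gj ∅ ((A⁻¹).transpose.mulVec (fun i => (m i : ℝ) - ξ i))) := by
    have h := gj_summable _ hA' (fun i => -ξ i)
    refine h.congr fun m => ?_
    congr 2
  obtain ⟨B, hB, hB2⟩ := Pool.Agent.H12.RC.pf_GS ι A ∅ hA x₀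
  let f : (ι → ℝ) → ℂ := fun x => ((gj ∅ (A.mulVec (x + x₀)) : ℝ) : ℂ) *
    Complex.exp ((2 * Real.pi * (∑ i, x i * ξ i) : ℝ) * Complex.I)
  have hint : Integrable (fun x : ι → ℝ => ((gj ∅ (A.mulVec x) : ℝ) : ℂ)) :=
    ((h2 ι A ∅ hA 0).1).ofReal
  have hF : ∀ k : ι → ℤ,
      ∫ x : ι → ℝ, Complex.exp (-(2 * Real.pi * (∑ i, (k i : ℝ) * x i) : ℝ) * Complex.I) * f x =
      ((|A.det|⁻¹ : ℝ) : ℂ) * (Complex.exp ((2 * Real.pi * (∑ i, ((k i : ℝ) - ξ i) * x₀ i) : ℝ) *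
        Complex.I) * (gj ∅ ((A⁻¹).transpose.mulVec (fun i => (k i : ℝ) - ξ i)) : ℂ)) := by
    intro k
    have e1 := integral_add_right_eq_self (μ := (volume : Measure (ι → ℝ)))
      (fun x : ι → ℝ => Complex.exp (-(2 * Real.pi *
        (∑ i, ((k i : ℝ) - ξ i) * (x i - x₀ i)) : ℝ) *
        Complex.I) * ((gj ∅ (A.mulVec x) : ℝ) : ℂ)) x₀
    have e2 : (fun x : ι → ℝ => Complex.exp (-(2 * Real.pi * (∑ i, (k i : ℝ) * x i) : ℝ) *
        Complex.I) * f x) = fun x : ι → ℝ => (fun x : ι → ℝ =>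
          Complex.exp (-(2 * Real.pi * (∑ i, ((k i : ℝ) - ξ i) * (x i - x₀ i)) : ℝ) *
        Complex.I) * ((gj ∅ (A.mulVec x) : ℝ) : ℂ)) (x + x₀) := by
      funext x
      have e4 : ∑ i, ((k i : ℝ) - ξ i) * ((x + x₀) i - x₀ i) =
          ∑ i, (k i : ℝ) * x i - ∑ i, x i * ξ i := by
        rw [← Finset.sum_sub_distrib]
        refine Finset.sum_congr rfl fun i _ => ?_
        rw [Pi.add_apply]
        ring
      simp only [f, e4]
      rw [mul_comm ((gj ∅ (A.mulVec (x + x₀)) : ℝ) : ℂ), ← mul_assoc, ← Complex.exp_add]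
      congr 2
      push_cast
      ring
    rw [e2, e1]
    have e3 : (fun x : ι → ℝ => Complex.exp (-(2 * Real.pi *
        (∑ i, ((k i : ℝ) - ξ i) * (x i - x₀ i)) : ℝ) *
        Complex.I) * ((gj ∅ (A.mulVec x) : ℝ) : ℂ)) = fun x : ι → ℝ =>
        Complex.exp ((2 * Real.pi * (∑ i, ((k i : ℝ) - ξ i) * x₀ i) : ℝ) * Complex.I) *
        (Complex.exp (-(2 * Real.pi * (∑ i, ((k i : ℝ) - ξ i) * x i) : ℝ) * Complex.I) *
          ((gj ∅ (A.mulVec x) : ℝ) : ℂ)) := by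
      funext x
      rw [← mul_assoc, ← Complex.exp_add]
      congr 2
      have : ∑ i, ((k i : ℝ) - ξ i) * (x i - x₀ i) =
          ∑ i, ((k i : ℝ) - ξ i) * x i - ∑ i, ((k i : ℝ) - ξ i) * x₀ i := by
        rw [← Finset.sum_sub_distrib]
        exact Finset.sum_congr rfl fun i _ => by ring
      rw [this]
      push_cast
      ring
    rw [e3, integral_const_mul, (h2 ι A ∅ hA (fun i => (k i : ℝ) - ξ i)).2, Finset.card_empty,
      pow_zero, mul_one]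
    ring
  have hcexp : Continuous fun x : ι → ℝ =>
      Complex.exp ((2 * Real.pi * (∑ i, x i * ξ i) : ℝ) * Complex.I) := by
    fun_prop
  have hnexp : ∀ r : ℝ, ‖Complex.exp ((r : ℂ) * Complex.I)‖ = 1 :=
    Complex.norm_exp_ofReal_mul_I
  have hnF : ∀ k : ι → ℤ, ‖((|A.det|⁻¹ : ℝ) : ℂ) *
      (Complex.exp ((2 * Real.pi * (∑ i, ((k i : ℝ) - ξ i) * x₀ i) : ℝ) *
        Complex.I) * (gj ∅ ((A⁻¹).transpose.mulVec (fun i => (k i : ℝ) - ξ i)) : ℂ))‖ =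
      |A.det|⁻¹ * gj ∅ ((A⁻¹).transpose.mulVec (fun i => (k i : ℝ) - ξ i)) := by
    intro k
    rw [norm_mul, norm_mul, hnexp, one_mul, Complex.norm_real, Complex.norm_real,
      Real.norm_eq_abs, Real.norm_eq_abs, abs_of_pos (gj_pos _),
      abs_of_nonneg (inv_nonneg.2 (abs_nonneg _))]
  have hsum : Summable fun k : ι → ℤ => ((|A.det|⁻¹ : ℝ) : ℂ) *
      (Complex.exp ((2 * Real.pi * (∑ i, ((k i : ℝ) - ξ i) * x₀ i) : ℝ) *
        Complex.I) * (gj ∅ ((A⁻¹).transpose.mulVec (fun i => (k i : ℝ) - ξ i)) : ℂ)) := by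
    refine Summable.of_norm ?_
    simp only [hnF]
    exact k2.mul_left _
  have h := h1 ι f B
    ((Complex.continuous_ofReal.comp ((Pool.Agent.H68.RC.continuous_gj_mulVec A ∅).comp
      (continuous_id.add continuous_const))).mul hcexp)
    ((hint.comp_add_right x₀).mul_bdd (c := 1) hcexp.aestronglyMeasurable
      (Filter.Eventually.of_forall fun x => (hnexp _).le))
    (fun m x hx => by
      change ‖((gj ∅ (A.mulVec ((fun i => x i + (m i : ℝ)) + x₀)) : ℝ) : ℂ) *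
        Complex.exp (((2 * Real.pi * (∑ i, (x i + (m i : ℝ)) * ξ i) : ℝ) : ℂ) * Complex.I)‖ ≤ B m
      rw [norm_mul, hnexp, mul_one, Complex.norm_real]
      exact hB2 m x hx) hB
    (by
      simp only [hF]
      exact hsum)
  simp only [hF] at h
  have h4 : ∑' m : ι → ℤ, ((gj ∅ (A.mulVec (fun i => (m i : ℝ) + x₀ i)) : ℝ) : ℂ) *
      Complex.exp ((2 * Real.pi * (∑ i, (m i : ℝ) * ξ i) : ℝ) * Complex.I) =
      ∑' m : ι → ℤ, f (fun i => (m i : ℝ)) := rfl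
  rw [h4, h]
  refine (norm_tsum_le_tsum_norm hsum.norm).trans ?_
  simp only [hnF]
  rw [tsum_mul_left]

end Pool.Agent.H14.CM4
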