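import Pool.Agent.H65.CM4.Targets1
import Pool.Agent.H14.CM4.PSX

/-!
# Row PN1: Gaussian sums over the integers of a totally real field
-/

set_option autoImplicit false

open MeasureTheory Set Filter NumberField NumberField.InfinitePlace Pool.Agent.H65.CM4
open scoped Real

namespace Pool.Agent.H14.CM4

open Pool.Agent.H28.RC (gj)

section

variable (k : Type) [Field k] [NumberField k]

/-- the index of the integral basis -/
abbrev ix : Type := Module.Free.ChooseBasisIndex ℤ (𝓞 k)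

/-- the integral basis -/
noncomputable abbrev ob : Module.Basis (ix k) ℤ (𝓞 k) := RingOfIntegers.basis k

variable [IsTotallyReal k]

/-- the matrix of the basis -/
noncomputable def Mt (e : ix k ≃ Pl k) : Matrix (ix k) (ix k) ℝ := fun i j =>
  rv (e i) ((ob k j : 𝓞 k) : k)

variable {k}

theorem rv_comb (e : ix k ≃ Pl k) (m : ix k → ℤ) (i : ix k) :
    rv (e i) ((∑ j, m j • ob k j : 𝓞 k) : k) = (Mt k e).mulVec (fun j => (m j : ℝ)) i := by
  have h1 : ((∑ j, m j • ob k j : 𝓞 k) : k) = ∑ j, (m j : k) * ((ob k j : 𝓞 k) : k) := by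
    change algebraMap (𝓞 k) k _ = _
    rw [map_sum]
    refine Finset.sum_congr rfl fun j _ => ?_
    rw [zsmul_eq_mul, map_mul, map_intCast]
  rw [h1, map_sum]
  unfold Mt Matrix.mulVec dotProduct
  refine Finset.sum_congr rfl fun j _ => ?_
  rw [map_mul, map_intCast, mul_comm]

theorem mt_gram (hEMB : T_EMB k) (e : ix k ≃ Pl k) :
    (Mt k e).transpose * Mt k e =
      (Algebra.traceMatrix ℤ (ob k)).map (Int.cast : ℤ → ℝ) := by
  ext a b
  rw [Matrix.mul_apply, Matrix.map_apply, Algebra.traceMatrix_apply, Algebra.traceForm_apply]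
  have h1 := hEMB.2.2.2.2.1 (((ob k a * ob k b : 𝓞 k)) : k)
  rw [← Equiv.sum_comp e] at h1
  have h2 : ((Algebra.trace ℚ k ((ob k a * ob k b : 𝓞 k) : k) : ℚ) : ℝ) =
      ((Algebra.trace ℤ (𝓞 k) (ob k a * ob k b) : ℤ) : ℝ) := by
    rw [← Algebra.coe_trace_int]
    push_cast
    rfl
  rw [← h2, ← h1]
  refine Finset.sum_congr rfl fun i _ => ?_
  rw [Matrix.transpose_apply]
  unfold Mt
  rw [← map_mul]
  rfl

theorem mt_det_sq (hEMB : T_EMB k) (e : ix k ≃ Pl k) :
    (Mt k e).det ^ 2 = ((discr k : ℤ) : ℝ) := by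
  classical
  have h1 := congrArg Matrix.det (mt_gram hEMB e)
  rw [Matrix.det_mul, Matrix.det_transpose] at h1
  have h2 : ((Algebra.traceMatrix ℤ (ob k)).map (Int.cast : ℤ → ℝ)).det =
      (((Algebra.traceMatrix ℤ (ob k)).det : ℤ) : ℝ) := by
    have h3 := (Int.castRingHom ℝ).map_det (Algebra.traceMatrix ℤ (ob k))
    exact h3.symm
  rw [h2] at h1
  rw [pow_two, h1]
  rfl

theorem dk_eq (hEMB : T_EMB k) (e : ix k ≃ Pl k) : (dk k : ℝ) = (Mt k e).det ^ 2 := by
  rw [mt_det_sq hEMB e]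
  have h1 : (0 : ℝ) ≤ ((discr k : ℤ) : ℝ) := by
    rw [← mt_det_sq hEMB e]
    exact sq_nonneg _
  have h2 : 0 ≤ discr k := by exact_mod_cast h1
  unfold dk
  have h3 : ((discr k).natAbs : ℤ) = discr k := Int.natAbs_of_nonneg h2
  have h4 : (((discr k).natAbs : ℤ) : ℝ) = ((discr k : ℤ) : ℝ) := by rw [h3]
  rw [← h4, Int.cast_natCast]

theorem mt_det (hEMB : T_EMB k) (e : ix k ≃ Pl k) : 1 ≤ |(Mt k e).det| := by
  have h1 := dk_eq hEMB e
  have h2 : (1 : ℝ) ≤ dk k := by exact_mod_cast hEMB.2.2.1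
  rw [h1] at h2
  rw [← sq_abs] at h2
  by_contra h
  push Not at h
  nlinarith [abs_nonneg (Mt k e).det]

/-- the dual lattice is contained in the integers divided by the discriminant -/
theorem dual_emb (hEMB : T_EMB k) (e : ix k ≃ Pl k) : ∃ z : (ix k → ℤ) → 𝓞 k,
    Function.Injective z ∧ ∀ m i, rv (e i) ((z m : 𝓞 k) : k) =
      dk k * ((Mt k e)⁻¹).transpose.mulVec (fun j => (m j : ℝ)) i := by
  classical
  have hdet : (Mt k e).det ≠ 0 := by
    intro h
    have := mt_det hEMB e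
    rw [h, abs_zero] at this
    linarith
  have hu : IsUnit (Mt k e).det := hdet.isUnit
  set T := Algebra.traceMatrix ℤ (ob k) with hT
  have hTd : (T.map (Int.cast : ℤ → ℝ)).det = dk k := by
    rw [dk_eq hEMB e, hT, ← mt_gram hEMB e, Matrix.det_mul, Matrix.det_transpose, pow_two]
  set z : (ix k → ℤ) → 𝓞 k := fun m => ∑ j, (T.adjugate.mulVec m) j • ob k j with hz
  have hkey : ∀ m i, rv (e i) ((z m : 𝓞 k) : k) =
      dk k * ((Mt k e)⁻¹).transpose.mulVec (fun j => (m j : ℝ)) i := by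
    intro m i
    rw [hz]
    simp only
    rw [rv_comb e (T.adjugate.mulVec m) i]
    have h1 : (fun j => ((T.adjugate.mulVec m j : ℤ) : ℝ)) =
        (T.map (Int.cast : ℤ → ℝ)).adjugate.mulVec (fun j => (m j : ℝ)) := by
      funext j
      have h2 : (T.map (Int.cast : ℤ → ℝ)).adjugate = T.adjugate.map (Int.cast : ℤ → ℝ) :=
        ((Int.castRingHom ℝ).map_adjugate T).symm
      rw [h2]
      unfold Matrix.mulVec dotProduct
      push_cast
      rfl
    rw [h1]
    have h3 : (Mt k e) = ((Mt k e)⁻¹).transpose * (T.map (Int.cast : ℤ → ℝ)) := by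
      rw [hT, ← mt_gram hEMB e, ← Matrix.mul_assoc, ← Matrix.transpose_mul,
        Matrix.mul_nonsing_inv _ hu, Matrix.transpose_one, Matrix.one_mul]
    have h4 : (Mt k e).mulVec ((T.map (Int.cast : ℤ → ℝ)).adjugate.mulVec
        (fun j => (m j : ℝ))) = (dk k : ℝ) • ((Mt k e)⁻¹).transpose.mulVec
        (fun j => (m j : ℝ)) := by
      conv_lhs => rw [h3]
      rw [Matrix.mulVec_mulVec, Matrix.mul_assoc, Matrix.mul_adjugate, hTd, Matrix.mul_smul,
        Matrix.mul_one, Matrix.smul_mulVec]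
    rw [h4]
    rfl
  refine ⟨z, ?_, hkey⟩
  intro m m' hmm
  have hdk : (dk k : ℝ) ≠ 0 := by
    have := hEMB.2.2.1
    exact_mod_cast this.ne'
  have h1 : ((Mt k e)⁻¹).transpose.mulVec (fun j => (m j : ℝ)) =
      ((Mt k e)⁻¹).transpose.mulVec (fun j => (m' j : ℝ)) := by
    funext i
    have h2 := hkey m i
    rw [hmm, hkey m' i] at h2
    exact (mul_left_cancel₀ hdk h2).symm
  have h3 : ∀ v : ix k → ℝ, (Mt k e).transpose.mulVec
      (((Mt k e)⁻¹).transpose.mulVec v) = v := by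
    intro v
    rw [Matrix.mulVec_mulVec, ← Matrix.transpose_mul, Matrix.nonsing_inv_mul _ hu,
      Matrix.transpose_one, Matrix.one_mulVec]
  have h4 := congrArg (Mt k e).transpose.mulVec h1
  rw [h3, h3] at h4
  funext j
  exact_mod_cast congrFun h4 j

/-- the Gaussian weights in coordinates -/
theorem gauss_eq (e : ix k ≃ Pl k) (hdet : (Mt k e).det ≠ 0) (W : ℝ) (p : Pl k → ℝ)
    (m : ix k → ℤ) :
    Real.exp (-(π * (∑ v : Pl k, (rv v (((ob k).equivFun.symm m : 𝓞 k) : k) - p v) ^ 2) /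
      W ^ 2)) =
    gj ∅ ((W⁻¹ • Mt k e).mulVec
      (fun i => (m i : ℝ) + (Mt k e)⁻¹.mulVec (fun i => -p (e i)) i)) := by
  classical
  rw [gj_empty]
  congr 1
  have h1 : ∀ i, (W⁻¹ • Mt k e).mulVec
      (fun i => (m i : ℝ) + (Mt k e)⁻¹.mulVec (fun i => -p (e i)) i) i =
      W⁻¹ * (rv (e i) (((ob k).equivFun.symm m : 𝓞 k) : k) - p (e i)) := by
    intro i
    have h2 : (fun i => (m i : ℝ) + (Mt k e)⁻¹.mulVec (fun i => -p (e i)) i) =
        (fun i => (m i : ℝ)) + (Mt k e)⁻¹.mulVec (fun i => -p (e i)) := rfl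
    rw [h2, Matrix.smul_mulVec, Matrix.mulVec_add, Matrix.mulVec_mulVec,
      Matrix.mul_nonsing_inv _ hdet.isUnit, Matrix.one_mulVec, Module.Basis.equivFun_symm_apply,
      rv_comb e m i]
    rfl
  simp only [h1]
  rw [← Equiv.sum_comp e]
  simp only [mul_pow]
  rw [← Finset.mul_sum, inv_pow, div_eq_mul_inv]
  ring

theorem dmat (e : ix k ≃ Pl k) (hdet : (Mt k e).det ≠ 0) {W : ℝ} (hW : 0 < W) :
    (W⁻¹ • Mt k e).det ≠ 0 := by
  rw [Matrix.det_smul]
  exact mul_ne_zero (pow_ne_zero _ (inv_ne_zero hW.ne')) hdet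

theorem gauss_summable (e : ix k ≃ Pl k) (hdet : (Mt k e).det ≠ 0) {W : ℝ} (hW : 0 < W)
    (p : Pl k → ℝ) :
    Summable (fun a : 𝓞 k =>
      Real.exp (-(π * (∑ v : Pl k, (rv v (a : k) - p v) ^ 2) / W ^ 2))) := by
  classical
  rw [← ((ob k).equivFun.symm.toEquiv).summable_iff]
  refine (gj_summable (W⁻¹ • Mt k e) (dmat e hdet hW)
    ((Mt k e)⁻¹.mulVec (fun i => -p (e i)))).congr fun m => ?_
  exact (gauss_eq e hdet W p m).symm

end

theorem pf_PN1 (k : Type) [Field k] [NumberField k] [IsTotallyReal k] (hEMB : T_EMB k)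
    (_hLOW : T_LOW k) : T_PN1 k := by
  classical
  intro W p ξ hW
  have hcard : Fintype.card (ix k) = Fintype.card (Pl k) := by
    rw [hEMB.1, ← Module.finrank_eq_card_chooseBasisIndex, RingOfIntegers.rank]
    rfl
  obtain ⟨e⟩ : Nonempty (ix k ≃ Pl k) := ⟨Fintype.equivOfCardEq hcard⟩
  have hM1 := mt_det hEMB e
  have hdet : (Mt k e).det ≠ 0 := by
    intro h
    rw [h, abs_zero] at hM1
    linarith
  have hu : IsUnit (Mt k e).det := hdet.isUnit
  have hdk : (0 : ℝ) < dk k := by exact_mod_cast hEMB.2.2.1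
  have hS1 := gauss_summable e hdet hW p
  have hS2 : Summable (fun z : 𝓞 k =>
      Real.exp (-(π * W ^ 2 * ∑ v : Pl k, (rv v (z : k) / dk k + ξ v) ^ 2))) := by
    refine (gauss_summable e hdet (W := dk k / W) (by positivity)
      (fun v => -(dk k * ξ v))).congr fun z => ?_
    congr 2
    have h1 : ∀ v : Pl k, (rv v (z : k) - -(dk k * ξ v)) ^ 2 =
        dk k ^ 2 * (rv v (z : k) / dk k + ξ v) ^ 2 := by
      intro v
      field_simp
      ring
    simp only [h1]
    rw [← Finset.mul_sum]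
    field_simp
  refine ⟨hS1, hS2, ?_⟩
  -- Poisson summation
  have hA := dmat e hdet hW
  have hps := psx (W⁻¹ • Mt k e) hA ((Mt k e)⁻¹.mulVec (fun i => -p (e i)))
    ((Mt k e).transpose.mulVec (fun i => ξ (e i)))
  have hL : ∑' a : 𝓞 k, (Real.exp (-(π * (∑ v : Pl k, (rv v (a : k) - p v) ^ 2) / W ^ 2)) : ℂ) *
        Complex.exp (2 * π * ((∑ v : Pl k, rv v (a : k) * ξ v : ℝ) : ℂ) * Complex.I) =
      ∑' m : ix k → ℤ, ((gj ∅ ((W⁻¹ • Mt k e).mulVec
        (fun i => (m i : ℝ) + (Mt k e)⁻¹.mulVec (fun i => -p (e i)) i)) : ℝ) : ℂ) *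
        Complex.exp ((2 * Real.pi * (∑ i, (m i : ℝ) *
          (Mt k e).transpose.mulVec (fun i => ξ (e i)) i) : ℝ) * Complex.I) := by
    rw [← ((ob k).equivFun.symm.toEquiv).tsum_eq]
    refine tsum_congr fun m => ?_
    have h1 := gauss_eq e hdet W p m
    have h2 : ∑ v : Pl k, rv v (((ob k).equivFun.symm m : 𝓞 k) : k) * ξ v =
        ∑ i, (m i : ℝ) * (Mt k e).transpose.mulVec (fun i => ξ (e i)) i := by
      rw [← Equiv.sum_comp e, Module.Basis.equivFun_symm_apply]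
      have h3 : ∀ i, rv (e i) ((∑ j, m j • ob k j : 𝓞 k) : k) * ξ (e i) =
          (Mt k e).mulVec (fun j => (m j : ℝ)) i * ξ (e i) := fun i => by rw [rv_comb e m i]
      rw [Finset.sum_congr rfl fun i _ => h3 i]
      have h4 := Matrix.dotProduct_mulVec (fun j => (m j : ℝ)) (Mt k e).transpose
        (fun i => ξ (e i))
      rw [Matrix.vecMul_transpose] at h4
      exact h4.symm
    change (Real.exp (-(π * (∑ v : Pl k, (rv v (((ob k).equivFun.symm m : 𝓞 k) : k) -
      p v) ^ 2) / W ^ 2)) : ℂ) * Complex.exp (2 * π * ((∑ v : Pl k,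
        rv v (((ob k).equivFun.symm m : 𝓞 k) : k) * ξ v : ℝ) : ℂ) * Complex.I) = _
    rw [h1, h2]
    push_cast
    rfl
  rw [hL]
  refine hps.trans ?_
  -- the determinant
  have hdA : |(W⁻¹ • Mt k e).det|⁻¹ ≤ W ^ dg k := by
    rw [Matrix.det_smul, hcard, hEMB.1, abs_mul, abs_of_pos (by positivity), mul_inv, inv_pow,
      inv_inv]
    have h1 : |(Mt k e).det|⁻¹ ≤ 1 := inv_le_one_of_one_le₀ hM1
    have h2 : 0 < W ^ dg k := by positivity
    nlinarith
  have hge : 0 ≤ ∑' m : ix k → ℤ, gj ∅ (((W⁻¹ • Mt k e)⁻¹).transpose.mulVec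
      (fun i => (m i : ℝ) - (Mt k e).transpose.mulVec (fun i => ξ (e i)) i)) :=
    tsum_nonneg fun m => (gj_pos _).le
  refine mul_le_mul hdA ?_ hge (by positivity)
  -- the dual side
  obtain ⟨z, hz1, hz2⟩ := dual_emb hEMB e
  have hterm : ∀ m : ix k → ℤ, gj ∅ (((W⁻¹ • Mt k e)⁻¹).transpose.mulVec
      (fun i => (m i : ℝ) - (Mt k e).transpose.mulVec (fun i => ξ (e i)) i)) =
      Real.exp (-(π * W ^ 2 * ∑ v : Pl k, (rv v ((-z m : 𝓞 k) : k) / dk k + ξ v) ^ 2)) := by
    intro m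
    rw [gj_empty]
    congr 1
    have h1 : (W⁻¹ • Mt k e)⁻¹ = W • (Mt k e)⁻¹ := by
      apply Matrix.inv_eq_right_inv
      rw [Matrix.smul_mul, Matrix.mul_smul, Matrix.mul_nonsing_inv _ hu, smul_smul,
        inv_mul_cancel₀ hW.ne', one_smul]
    have h2 : ∀ i, ((W⁻¹ • Mt k e)⁻¹).transpose.mulVec
        (fun i => (m i : ℝ) - (Mt k e).transpose.mulVec (fun i => ξ (e i)) i) i =
        W * (((Mt k e)⁻¹).transpose.mulVec (fun j => (m j : ℝ)) i - ξ (e i)) := by
      intro i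
      have h3 : (fun i => (m i : ℝ) - (Mt k e).transpose.mulVec (fun i => ξ (e i)) i) =
          (fun i => (m i : ℝ)) - (Mt k e).transpose.mulVec (fun i => ξ (e i)) := rfl
      rw [h1, h3, Matrix.transpose_smul, Matrix.smul_mulVec, Matrix.mulVec_sub,
        Matrix.mulVec_mulVec, ← Matrix.transpose_mul, Matrix.mul_nonsing_inv _ hu,
        Matrix.transpose_one, Matrix.one_mulVec]
      rfl
    simp only [h2]
    rw [← Equiv.sum_comp e]
    have h4 : ∀ i, (rv (e i) ((-z m : 𝓞 k) : k) / dk k + ξ (e i)) ^ 2 =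
        (((Mt k e)⁻¹).transpose.mulVec (fun j => (m j : ℝ)) i - ξ (e i)) ^ 2 := by
      intro i
      have h5 : ((-z m : 𝓞 k) : k) = -((z m : 𝓞 k) : k) := rfl
      rw [h5, map_neg, hz2 m i]
      field_simp
      ring
    simp only [h4, mul_pow]
    rw [← Finset.mul_sum]
    ring
  simp only [hterm]
  have hinj : Function.Injective fun m => -z m := fun m m' h => hz1 (neg_injective h)
  exact (hS2.comp_injective hinj).tsum_le_tsum_of_inj _ hinj
    (fun _ _ => (Real.exp_pos _).le) (fun _ => le_rfl) hS2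

end Pool.Agent.H14.CM4
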