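import Pool.Agent.H65.CM4.Targets1

/-!
# The Ramanujan sums (RMW)
-/

set_option autoImplicit false

open MeasureTheory Set Filter NumberField NumberField.InfinitePlace Pool.Agent.H65.CM4
open scoped Real

namespace Pool.Agent.H14.CM4

variable (k : Type) [Field k] [NumberField k] [IsTotallyReal k]

omit [IsTotallyReal k] in
theorem rmw_cop {R : Ch k} {b : ℕ} {m : Ideal (𝓞 k)} {w : V2 k} (hb : Adm R b)
    (hmb : m ⊔ Ideal.span {(b : 𝓞 k)} = ⊤) (hw : w ∈ R.W) : Cop m w := by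
  unfold Cop
  by_contra h
  obtain ⟨P, hP, hle⟩ := Ideal.exists_le_maximal _ h
  have hN0 : Ideal.absNorm (Ideal.span {w.1, w.2} : Ideal (𝓞 k)) ≠ 0 := by
    rw [Ne, Ideal.absNorm_eq_zero_iff]
    intro h0
    rw [Ideal.span_eq_bot] at h0
    refine R.ne w hw (Prod.ext ?_ ?_)
    · exact h0 w.1 (by simp)
    · exact h0 w.2 (by simp)
  have h1 : Ideal.absNorm (Ideal.span {w.1, w.2} : Ideal (𝓞 k)) ∣ b :=
    ((Nat.dvd_factorial (Nat.pos_of_ne_zero hN0) (R.cont w hw)).trans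
      (Dvd.intro_left _ rfl)).trans hb.2
  have h2 : ((Ideal.absNorm (Ideal.span {w.1, w.2} : Ideal (𝓞 k)) : ℕ) : 𝓞 k) ∈ P :=
    hle (Ideal.mem_sup_left (Ideal.absNorm_mem _))
  have h3 : (b : 𝓞 k) ∈ P := by
    obtain ⟨c, hc⟩ := h1
    rw [hc, Nat.cast_mul]
    exact P.mul_mem_right _ h2
  apply hP.ne_top
  rw [eq_top_iff, ← hmb]
  refine sup_le (le_sup_right.trans hle) ?_
  rw [Ideal.span_singleton_le_iff_mem]
  exact h3

open Classical in
theorem pf_RMW (_hEMB : T_EMB k) (hDVP : T_DVP k) : T_RMW k := by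
  intro R b m w Q hb hm hsq hmb hw
  have hcop := rmw_cop k hb hmb hw
  refine ⟨hcop, ?_⟩
  have hpf : ∀ P ∈ pf m, Prime P ∧ P ∣ m := by
    intro P hP
    unfold pf at hP
    rw [Multiset.mem_toFinset] at hP
    exact ⟨UniqueFactorizationMonoid.prime_of_normalized_factor P hP,
      UniqueFactorizationMonoid.dvd_of_mem_normalizedFactors hP⟩
  have hnm1 : ∀ P ∈ pf m, 1 ≤ nm P := by
    intro P hP
    have h1 : Ideal.absNorm P ≠ 0 := by
      rw [Ne, Ideal.absNorm_eq_zero_iff]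
      exact (hpf P hP).1.ne_zero
    unfold nm
    exact_mod_cast Nat.one_le_iff_ne_zero.mpr h1
  set F : Finset (Ideal (𝓞 k)) := (pf m).filter (fun P => val Q w ∈ P) with hF
  have h1 : |Rn m (Lw m w) Q| ≤ ∏ P ∈ F, nm P := by
    unfold Rn
    rw [Finset.abs_prod, hF, Finset.prod_filter]
    refine Finset.prod_le_prod (fun _ _ => abs_nonneg _) fun P hP => ?_
    have h2 := hDVP m P w Q hm (Ideal.isPrime_of_prime (hpf P hP).1) (hpf P hP).2 hcop
    by_cases h3 : val Q w ∈ P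
    · rw [if_pos (h2.2 h3), if_pos h3, abs_of_nonneg (by linarith [hnm1 P hP])]
      linarith
    · rw [if_neg (fun h => h3 (h2.1 h)), if_neg h3, abs_neg, abs_one]
  have h2 : (∏ P ∈ F, P) ∣ m ⊔ Ideal.span {val Q w} := by
    refine Finset.prod_primes_dvd _ (fun P hP => ?_) (fun P hP => ?_)
    · exact (hpf P (Finset.mem_of_mem_filter P hP)).1
    · have h3 := Finset.mem_filter.mp hP
      rw [Ideal.dvd_iff_le]
      refine sup_le (Ideal.dvd_iff_le.mp (hpf P h3.1).2) ?_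
      rw [Ideal.span_singleton_le_iff_mem]
      exact h3.2
  have h3 : Ideal.absNorm (∏ P ∈ F, P) ≤ Ideal.absNorm (m ⊔ Ideal.span {val Q w}) := by
    refine Nat.le_of_dvd (Nat.pos_of_ne_zero ?_) (map_dvd Ideal.absNorm h2)
    rw [Ne, Ideal.absNorm_eq_zero_iff]
    intro h
    exact hm (le_bot_iff.mp (h ▸ le_sup_left))
  have h4 : (∏ P ∈ F, nm P) = ((Ideal.absNorm (∏ P ∈ F, P) : ℕ) : ℝ) := by
    rw [map_prod, Nat.cast_prod]
    rfl
  rw [h4] at h1
  refine h1.trans ?_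
  unfold nm
  exact_mod_cast h3

end Pool.Agent.H14.CM4
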